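import Mathlib

set_option autoImplicit false

/-!
# The reduction algorithm for hyperbolic matrices of `SL(2, ℤ)`
-/

namespace Q261.Red

open Filter Topology

/-- integral `2 × 2` matrices -/
abbrev Mat := Matrix (Fin 2) (Fin 2) ℤ

/-- the matrix `M_a` -/
def Ma (a : ℕ) : Mat := !![0, 1; 1, (a : ℤ)]

/-- the matrix `M_P = M_{a_1} ... M_{a_{2n}}` -/
def MP (P : List ℕ) : Mat := (P.map Ma).prod

/-- the LLS cycle of `M` is the class of `P`: `M` is `GL(2, ℤ)`-conjugate to `M_P` or `- M_P` -/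
def HasLLS (M : Mat) (P : List ℕ) : Prop :=
  ∃ g : GL (Fin 2) ℤ, (g : Mat) * M * ((g⁻¹ : GL (Fin 2) ℤ) : Mat) = MP P ∨
    (g : Mat) * M * ((g⁻¹ : GL (Fin 2) ℤ) : Mat) = -MP P

/-- steps 1 and 2 of the algorithm, with `M = !![p, r; q, s]`: make `q` positive, then conjugate by
`!![1, -k; 0, 1]` with `k = ⌊p / q⌋` -/
def norm12 (M : Mat) : Mat :=
  let M' := if M 1 0 < 0 then -M else M
  let k := M' 0 0 / M' 1 0
  !![1, -k; 0, 1] * M' * !![1, k; 0, 1]

/-- step 3 of the algorithm, repeated at most `n` times -/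
def run3 : ℕ → Mat → Option Mat
  | 0, _ => none
  | n + 1, M =>
    if M 1 0 = 1 then some M
    else if M 1 0 < M 1 1 then some M
    else if M 1 1 < -M 1 0 then run3 n (-(!![-1, 1; 0, 1] * M * !![-1, 1; 0, 1]))
    else if |M 1 1| < M 1 0 then run3 n (norm12 !![M 1 1, M 1 0; M 0 1, M 0 0])
    else none

/-- `M'` is the output of the reduction algorithm on the input `M` -/
def Output (M M' : Mat) : Prop := ∃ n, run3 n (norm12 M) = some M'

/-- the value of the finite regular continued fraction `[b_1; b_2 : ... : b_k]` -/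
def cf : List ℕ → ℚ
  | [] => 0
  | [b] => b
  | b :: l => b + 1 / cf l

/-- add one to the last entry -/
def bump : List ℕ → List ℕ
  | [] => []
  | [b] => [b + 1]
  | b :: l => b :: bump l

/-- the Gauss-Kuzmin frequency -/
noncomputable def GK (Q : List ℕ) : ℝ :=
  Real.logb 2 (((cf (bump Q) : ℝ) * (1 + (cf Q : ℝ))) / ((cf Q : ℝ) * (1 + (cf (bump Q) : ℝ))))

/-- the matrices counted by `#_N(P)` -/
def S (P : List ℕ) (N : ℕ) : Set Mat :=
  {M | M.det = 1 ∧ (∀ i j, |M i j| ≤ (N : ℤ)) ∧ HasLLS M P ∧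
    ∃ M', Output M M' ∧
      (((∃ b, P = [1, b]) ∧ M' 0 0 = 0 ∧ M' 1 0 = 1) ∨
        ((¬ ∃ b, P = [1, b]) ∧ (M' 1 0 : ℚ) / (M' 0 0 : ℚ) = cf P.dropLast))}

/-- `#_N(P)` -/
noncomputable def cnt (P : List ℕ) (N : ℕ) : ℕ := (S P N).ncard

/-- the question for the sequence `P` -/
def Claim (P : List ℕ) : Prop :=
  Tendsto (fun N : ℕ => (cnt P N : ℝ) / (cnt (P.rotate 1) N : ℝ)) atTop
    (𝓝 (GK P.dropLast / GK (P.rotate 1).dropLast))

/-! ### basic computations -/

lemma eta (M : Mat) : ∃ p q r s : ℤ, M = !![p, r; q, s] :=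
  ⟨M 0 0, M 1 0, M 0 1, M 1 1, Matrix.eta_fin_two M⟩

lemma norm12_pos {p q r s : ℤ} (hq : 0 < q) : norm12 !![p, r; q, s] =
    !![p - p / q * q, r + p / q * (p - s - p / q * q); q, s + p / q * q] := by
  have h : ¬ q < 0 := by omega
  unfold norm12
  simp only [Matrix.of_apply, Matrix.cons_val', Matrix.cons_val_zero, Matrix.cons_val_one,
    Matrix.cons_val_fin_one, h, if_false, Matrix.mul_fin_two]
  ext i j
  fin_cases i <;> fin_cases j <;> simp <;> ring

lemma norm12_neg {p q r s : ℤ} (hq : q < 0) : norm12 !![p, r; q, s] =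
    norm12 !![-p, -r; -q, -s] := by
  have h : ¬ (-q < 0) := by omega
  have e : -(!![p, r; q, s] : Mat) = !![-p, -r; -q, -s] := by
    ext i j
    fin_cases i <;> fin_cases j <;> rfl
  unfold norm12
  simp only [Matrix.of_apply, Matrix.cons_val', Matrix.cons_val_zero, Matrix.cons_val_one,
    Matrix.cons_val_fin_one, h, if_false, hq, if_true, e]

lemma norm12_self {p q r s : ℤ} (h0 : 0 ≤ p) (h1 : p < q) :
    norm12 !![p, r; q, s] = !![p, r; q, s] := by
  have hq : 0 < q := by omega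
  rw [norm12_pos hq, Int.ediv_eq_zero_of_lt h0 h1]
  simp

lemma run3_succ (n : ℕ) (p q r s : ℤ) : run3 (n + 1) !![p, r; q, s] =
    if q = 1 then some !![p, r; q, s]
    else if q < s then some !![p, r; q, s]
    else if s < -q then run3 n !![q - p, p - q + r - s; q, -q - s]
    else if |s| < q then run3 n (norm12 !![s, q; r, p])
    else none := by
  have e : -(!![-1, 1; 0, 1] * !![p, r; q, s] * !![-1, 1; 0, 1] : Mat) =
      !![q - p, p - q + r - s; q, -q - s] := by
    rw [Matrix.mul_fin_two, Matrix.mul_fin_two]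
    ext i j
    fin_cases i <;> fin_cases j <;> simp <;> ring
  rw [run3]
  simp only [Matrix.of_apply, Matrix.cons_val', Matrix.cons_val_zero, Matrix.cons_val_one,
    Matrix.cons_val_fin_one, e]

/-- more fuel does not change the output -/
lemma run3_mono {n m : ℕ} (h : n ≤ m) {M M' : Mat} (hn : run3 n M = some M') :
    run3 m M = some M' := by
  induction n generalizing m M with
  | zero => simp [run3] at hn
  | succ n ih =>
    obtain ⟨m, rfl⟩ := Nat.exists_eq_add_of_le' (show 1 ≤ m by omega)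
    obtain ⟨p, q, r, s, rfl⟩ := eta M
    rw [run3_succ] at hn ⊢
    split_ifs at hn ⊢ with h1 h2 h3 h4
    · exact hn
    · exact hn
    · exact ih (by omega) hn
    · exact ih (by omega) hn

end Q261.Red
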