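import Pool.Agent.Q261.Red.Words

set_option autoImplicit false

/-!
# Lower bound for the number of matrices with output `(1, a)`
-/

namespace Q261.Red

/-- `!![0, 1; 1, k]` as an element of `GL(2, ℤ)` -/
def gk (k : ℕ) : GL (Fin 2) ℤ where
  val := !![0, 1; 1, (k : ℤ)]
  inv := !![-(k : ℤ), 1; 1, 0]
  val_inv := by
    rw [Matrix.mul_fin_two]
    ext i j
    fin_cases i <;> fin_cases j <;> simp
  inv_val := by
    rw [Matrix.mul_fin_two]
    ext i j
    fin_cases i <;> fin_cases j <;> simp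

lemma pred_m (Y : St) (k : ℕ) : (Y.pred k).m = -((gk k : Mat) * Y.m * ((gk k)⁻¹ : GL (Fin 2) ℤ)) := by
  change _ = -(!![0, 1; 1, (k : ℤ)] * Y.m * !![-(k : ℤ), 1; 1, 0])
  unfold St.m St.pred
  rw [Matrix.mul_fin_two, Matrix.mul_fin_two]
  ext i j
  fin_cases i <;> fin_cases j <;> simp <;> ring

lemma hasLLS_pred {Y : St} {P : List ℕ} (h : HasLLS Y.m P) (k : ℕ) : HasLLS (Y.pred k).m P := by
  obtain ⟨g, hg⟩ := h
  refine ⟨g * (gk k)⁻¹, ?_⟩
  have e : ((g * (gk k)⁻¹ : GL (Fin 2) ℤ) : Mat) * (Y.pred k).m *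
      (((g * (gk k)⁻¹)⁻¹ : GL (Fin 2) ℤ) : Mat) = -((g : Mat) * Y.m * ((g⁻¹ : GL (Fin 2) ℤ) : Mat)) := by
    rw [pred_m, mul_inv_rev, inv_inv, Units.val_mul, Units.val_mul]
    have h1 : (((gk k)⁻¹ : GL (Fin 2) ℤ) : Mat) * (gk k : Mat) = 1 := (gk k).inv_mul
    calc (g : Mat) * (((gk k)⁻¹ : GL (Fin 2) ℤ) : Mat) *
          -((gk k : Mat) * Y.m * (((gk k)⁻¹ : GL (Fin 2) ℤ) : Mat)) *
          ((gk k : Mat) * ((g⁻¹ : GL (Fin 2) ℤ) : Mat))
        = -((g : Mat) * ((((gk k)⁻¹ : GL (Fin 2) ℤ) : Mat) * (gk k : Mat)) * Y.m *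
          ((((gk k)⁻¹ : GL (Fin 2) ℤ) : Mat) * (gk k : Mat)) * ((g⁻¹ : GL (Fin 2) ℤ) : Mat)) := by
          noncomm_ring
      _ = _ := by rw [h1, mul_one, mul_one]
  rw [e]
  rcases hg with h | h
  · right; rw [h]
  · left; rw [h, neg_neg]

/-- the reduced matrix `!![1, 1; a, a + 1]` -/
def R2 (a : ℕ) : St := ⟨1, a, 1, a + 1⟩

lemma nrm_R2 {a : ℕ} (ha : 2 ≤ a) : Nrm (R2 a) := by
  refine ⟨?_, ?_, ?_⟩
  · change (0 : ℤ) ≤ 1; norm_num
  · change (1 : ℤ) < a; exact_mod_cast ha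
  · change (1 : ℤ) * (a + 1) - a * 1 = 1; ring

/-- its predecessor -/
def X0 (a : ℕ) : St := (R2 a).pred 3

lemma X0_eq (a : ℕ) : X0 a = ⟨2 * a - 1, 6 * a - 1, -a, -(3 * a + 1)⟩ := by
  simp only [X0, St.pred, R2, St.mk.injEq]
  push_cast
  refine ⟨by ring, by ring, trivial, by ring⟩

lemma reg_X0 {a : ℕ} (ha : 2 ≤ a) : Reg (X0 a) := by
  have ha' : (2 : ℤ) ≤ a := by exact_mod_cast ha
  rw [X0_eq]
  refine ⟨⟨?_, ?_, ?_⟩, ?_, ?_⟩
  · change (0 : ℤ) ≤ 2 * a - 1; omega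
  · change (2 : ℤ) * a - 1 < 6 * a - 1; omega
  · change (2 * (a : ℤ) - 1) * (-(3 * a + 1)) - (6 * a - 1) * (-a) = 1; ring
  · change -(3 * (a : ℤ) + 1) < 0; omega
  · change -(6 * (a : ℤ) - 1) < -(3 * a + 1); omega

lemma lls_R2 (a : ℕ) : HasLLS (R2 a).m [a, 1] := by
  refine ⟨1, Or.inl ?_⟩
  rw [inv_one, Units.val_one, one_mul, mul_one]
  simp only [MP, Ma, R2, St.m, List.map_cons, List.map_nil, List.prod_cons, List.prod_nil, mul_one]
  rw [Matrix.mul_fin_two]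
  ext i j
  fin_cases i <;> fin_cases j <;> simp
  ring

lemma lls_act {a : ℕ} (l : List ℕ) : HasLLS (act (X0 a) l).m [a, 1] := by
  induction l using List.reverseRecOn with
  | nil => exact hasLLS_pred (lls_R2 a) 3
  | append_singleton l k ih => rw [act_append]; exact hasLLS_pred ih k

/-- the output on the states above `X0` -/
lemma run_act {a : ℕ} (ha : 2 ≤ a) (l : List ℕ) (hl : PosL l) :
    ∃ n, run3 n (act (X0 a) l).m = some (R2 a).m := by
  induction l using List.reverseRecOn with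
  | nil =>
    refine ⟨2, ?_⟩
    change run3 (1 + 1) (X0 a).m = _
    rw [run3_reg (reg_X0 ha), X0, norm12_pred (nrm_R2 ha)]
    have ha' : (2 : ℤ) ≤ a := by exact_mod_cast ha
    change run3 (0 + 1) !![(1 : ℤ), 1; (a : ℤ), (a : ℤ) + 1] = some !![(1 : ℤ), 1; (a : ℤ), (a : ℤ) + 1]
    rw [run3_succ, if_neg (by omega), if_pos (by omega)]
  | append_singleton l k ih =>
    have hl' : PosL l := fun j hj => hl j (List.mem_append_left _ hj)
    have hk : 1 ≤ k := hl k (by simp)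
    obtain ⟨n, hn⟩ := ih hl'
    refine ⟨n + 1, ?_⟩
    have h1 := reg_act (reg_X0 ha) hl'
    rw [act_append, run3_reg (reg_pred h1 hk).1, norm12_pred h1.1, hn]

lemma m_inj {Y Z : St} (h : Y.m = Z.m) : Y = Z := by
  obtain ⟨p, q, r, s⟩ := Y
  obtain ⟨p', q', r', s'⟩ := Z
  have h1 := congrFun (congrFun h 0) 0
  have h2 := congrFun (congrFun h 0) 1
  have h3 := congrFun (congrFun h 1) 0
  have h4 := congrFun (congrFun h 1) 1
  simp [St.m] at h1 h2 h3 h4
  rw [h1, h2, h3, h4]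

/-- the states above `X0` are counted -/
lemma mem_S {a : ℕ} (ha : 2 ≤ a) {l : List ℕ} (hl : PosL l) {N : ℕ}
    (hN : (act (X0 a) l).q ≤ N) : (act (X0 a) l).m ∈ S [a, 1] N := by
  have hR := reg_act (reg_X0 ha) hl
  have hrn := hR.r_neg
  have hrs := hR.r_le
  set Z := act (X0 a) l with hZ
  obtain ⟨⟨h1, h2, h3⟩, h4, h5⟩ := hR
  refine ⟨?_, ?_, lls_act l, (R2 a).m, ?_, ?_⟩
  · unfold St.m
    rw [Matrix.det_fin_two_of]
    linarith
  · intro i j
    fin_cases i <;> fin_cases j <;> simp only [St.m, abs_le] <;> simp <;> constructor <;> omega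
  · obtain ⟨n, hn⟩ := run_act ha l hl
    refine ⟨n, ?_⟩
    rw [← hZ] at hn
    unfold St.m at hn ⊢
    rw [norm12_self h1 h2]
    exact hn
  · right
    constructor
    · rintro ⟨b, hb⟩
      simp at hb
      omega
    · simp [St.m, R2, cf]

lemma finite_box (N : ℕ) : {M : Mat | ∀ i j, |M i j| ≤ (N : ℤ)}.Finite := by
  have h : {M : Mat | ∀ i j, |M i j| ≤ (N : ℤ)} ⊆
      Set.pi Set.univ fun _ => Set.pi Set.univ fun _ => Set.Icc (-(N : ℤ)) N := by
    intro M hM i _ j _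
    exact abs_le.1 (hM i j)
  exact (Set.Finite.pi' fun _ => Set.Finite.pi' fun _ => Set.finite_Icc _ _).subset fun M hM i j =>
    abs_le.1 (hM i j)

lemma finite_S (P : List ℕ) (N : ℕ) : (S P N).Finite :=
  (finite_box N).subset fun _ hM => hM.2.1

/-- coprime pairs -/
def cop (Y : ℕ) : Finset (ℕ × ℕ) :=
  (Finset.Icc 1 Y ×ˢ Finset.Icc 1 Y).filter fun v => v.2 ≤ v.1 ∧ Nat.Coprime v.1 v.2

lemma sum_inv_sq (Y : ℕ) (hY : 2 ≤ Y) :
    ∑ d ∈ Finset.Icc 2 Y, (1 : ℝ) / (d : ℝ) ^ 2 ≤ 3 / 4 - 1 / Y := by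
  induction Y, hY using Nat.le_induction with
  | base => norm_num
  | succ n hn ih =>
    rw [Finset.sum_Icc_succ_top (by omega)]
    have h1 : (2 : ℝ) ≤ n := by exact_mod_cast hn
    have h2 : (1 : ℝ) / ((n + 1 : ℕ) : ℝ) ^ 2 ≤ 1 / n - 1 / ((n + 1 : ℕ) : ℝ) := by
      push_cast
      rw [div_sub_div _ _ (by positivity) (by positivity), div_le_div_iff₀ (by positivity)
        (by positivity)]
      nlinarith
    linarith

lemma card_cop (Y : ℕ) : (Y : ℝ) ^ 2 / 8 ≤ (cop Y).card := by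
  rcases Nat.lt_or_ge Y 2 with hY | hY
  · rcases Nat.eq_zero_or_pos Y with rfl | h
    · simp
    · have : Y = 1 := by omega
      subst this
      have h1 : (1 : ℕ) ≤ (cop 1).card := by
        rw [Nat.one_le_iff_ne_zero, Ne, Finset.card_eq_zero, ← Ne, ← Finset.nonempty_iff_ne_empty]
        exact ⟨(1, 1), by simp [cop]⟩
      have h2 : (1 : ℝ) ≤ (cop 1).card := by exact_mod_cast h1
      push_cast
      linarith
  · classical
    set A : Finset (ℕ × ℕ) := Finset.Icc 1 Y ×ˢ Finset.Icc 1 Y with hA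
    have hsub : A ⊆ (cop Y ∪ (cop Y).image Prod.swap) ∪
        (Finset.Icc 2 Y).biUnion fun d => (((Finset.Icc 1 (Y / d)) ×ˢ (Finset.Icc 1 (Y / d))).image
          fun v => (d * v.1, d * v.2)) := by
      rintro ⟨x, y⟩ hv
      rw [hA, Finset.mem_product, Finset.mem_Icc, Finset.mem_Icc] at hv
      simp only at hv
      by_cases hc : Nat.Coprime x y
      · apply Finset.mem_union_left
        rcases le_total y x with h | h
        · apply Finset.mem_union_left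
          simp only [cop, Finset.mem_filter, Finset.mem_product, Finset.mem_Icc]
          exact ⟨hv, h, hc⟩
        · apply Finset.mem_union_right
          rw [Finset.mem_image]
          refine ⟨(y, x), ?_, rfl⟩
          simp only [cop, Finset.mem_filter, Finset.mem_product, Finset.mem_Icc]
          exact ⟨⟨hv.2, hv.1⟩, h, hc.symm⟩
      · apply Finset.mem_union_right
        rw [Finset.mem_biUnion]
        have hg0 : 0 < Nat.gcd x y := Nat.gcd_pos_of_pos_left _ (by omega)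
        have hg1 : Nat.gcd x y ≠ 1 := hc
        have hg2 : Nat.gcd x y ≤ x := Nat.gcd_le_left _ (by omega)
        refine ⟨Nat.gcd x y, Finset.mem_Icc.2 ⟨by omega, by omega⟩, ?_⟩
        rw [Finset.mem_image]
        have hx := Nat.mul_div_cancel' (Nat.gcd_dvd_left x y)
        have hy := Nat.mul_div_cancel' (Nat.gcd_dvd_right x y)
        refine ⟨(x / Nat.gcd x y, y / Nat.gcd x y), ?_, by rw [hx, hy]⟩
        rw [Finset.mem_product, Finset.mem_Icc, Finset.mem_Icc]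
        refine ⟨⟨Nat.div_pos hg2 hg0, Nat.div_le_div_right hv.1.2⟩,
          Nat.div_pos (Nat.gcd_le_right _ (by omega)) hg0, Nat.div_le_div_right hv.2.2⟩
    have h1 := (Finset.card_le_card hsub).trans (Finset.card_union_le _ _)
    have h2 := Finset.card_union_le (cop Y) ((cop Y).image Prod.swap)
    have h3 : ((cop Y).image Prod.swap).card ≤ (cop Y).card := Finset.card_image_le
    have h4 : ((Finset.Icc 2 Y).biUnion fun d => (((Finset.Icc 1 (Y / d)) ×ˢ
        (Finset.Icc 1 (Y / d))).image fun v => (d * v.1, d * v.2))).card ≤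
        ∑ d ∈ Finset.Icc 2 Y, (Y / d) * (Y / d) := by
      refine Finset.card_biUnion_le.trans (Finset.sum_le_sum fun d _ => ?_)
      refine Finset.card_image_le.trans ?_
      rw [Finset.card_product, Nat.card_Icc, Nat.add_sub_cancel]
    have h5 : A.card = Y * Y := by
      rw [hA, Finset.card_product, Nat.card_Icc, Nat.add_sub_cancel]
    have h6 : ((∑ d ∈ Finset.Icc 2 Y, (Y / d) * (Y / d) : ℕ) : ℝ) ≤ (Y : ℝ) ^ 2 * (3 / 4) := by
      push_cast
      calc ∑ d ∈ Finset.Icc 2 Y, (((Y / d : ℕ) : ℝ) * ((Y / d : ℕ) : ℝ))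
          ≤ ∑ d ∈ Finset.Icc 2 Y, (Y : ℝ) ^ 2 * (1 / (d : ℝ) ^ 2) := by
            refine Finset.sum_le_sum fun d _ => ?_
            have h7 : ((Y / d : ℕ) : ℝ) ≤ (Y : ℝ) / d := Nat.cast_div_le
            have h8 : (0 : ℝ) ≤ ((Y / d : ℕ) : ℝ) := Nat.cast_nonneg _
            calc ((Y / d : ℕ) : ℝ) * ((Y / d : ℕ) : ℝ) ≤ ((Y : ℝ) / d) * ((Y : ℝ) / d) :=
                  mul_le_mul h7 h7 h8 (h8.trans h7)
              _ = _ := by ring
        _ = (Y : ℝ) ^ 2 * ∑ d ∈ Finset.Icc 2 Y, (1 : ℝ) / (d : ℝ) ^ 2 := by rw [Finset.mul_sum]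
        _ ≤ (Y : ℝ) ^ 2 * (3 / 4) := by
            apply mul_le_mul_of_nonneg_left _ (by positivity)
            have := sum_inv_sq Y hY
            have h9 : (0 : ℝ) ≤ 1 / Y := by positivity
            linarith
    have h7 : A.card ≤ 2 * (cop Y).card + ∑ d ∈ Finset.Icc 2 Y, (Y / d) * (Y / d) := by omega
    rw [h5] at h7
    have h8 : ((Y * Y : ℕ) : ℝ) ≤ ((2 * (cop Y).card +
      ∑ d ∈ Finset.Icc 2 Y, (Y / d) * (Y / d) : ℕ) : ℝ) := by exact_mod_cast h7
    rw [Nat.cast_add] at h8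
    push_cast at h8 h6
    nlinarith

/-- **lower bound** -/
theorem cnt_ge {a : ℕ} (ha : 2 ≤ a) (N : ℕ) :
    ((Nat.sqrt (N / (12 * a)) : ℕ) : ℝ) ^ 2 / 8 ≤ cnt [a, 1] N := by
  classical
  set Y := Nat.sqrt (N / (12 * a)) with hY
  refine (card_cop Y).trans ?_
  have hex : ∀ v ∈ cop Y, ∃ l, PosL l ∧ V l = v := by
    rintro ⟨x, y⟩ hv
    simp only [cop, Finset.mem_filter, Finset.mem_product, Finset.mem_Icc] at hv
    exact exists_word y x hv.1.2.1 hv.2.1 hv.2.2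
  choose! w hw1 hw2 using hex
  have h1 : ((cop Y).image fun v => (act (X0 a) (w v)).m : Finset Mat) ⊆ (finite_S [a, 1] N).toFinset := by
    intro M hM
    rw [Finset.mem_image] at hM
    obtain ⟨⟨x, y⟩, hv, rfl⟩ := hM
    rw [Set.Finite.mem_toFinset]
    apply mem_S ha (hw1 _ hv)
    rw [q_act, hw2 _ hv]
    simp only [cop, Finset.mem_filter, Finset.mem_product, Finset.mem_Icc] at hv
    have hx : x * x ≤ N / (12 * a) := (Nat.mul_le_mul hv.1.1.2 hv.1.1.2).trans (Nat.sqrt_le _)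
    have hx2 : x * x * (12 * a) ≤ N := (Nat.le_div_iff_mul_le (by omega)).1 hx
    have hx3 : (x : ℤ) * x * (12 * a) ≤ N := by exact_mod_cast hx2
    have hyx : (y : ℤ) ≤ x := by exact_mod_cast hv.2.1
    have hy0 : (0 : ℤ) ≤ y := Int.natCast_nonneg _
    have ha0 : (0 : ℤ) ≤ a := Int.natCast_nonneg _
    refine le_trans ?_ hx3
    rw [X0_eq]
    simp only [form]
    have e1 : (a : ℤ) * (x * y) ≤ a * (x * x) :=
      mul_le_mul_of_nonneg_left (mul_le_mul_of_nonneg_left hyx (by omega)) ha0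
    have e2 : (a : ℤ) * (y * y) ≤ a * (x * x) :=
      mul_le_mul_of_nonneg_left (mul_le_mul hyx hyx hy0 (by omega)) ha0
    nlinarith [mul_nonneg (Int.natCast_nonneg x) (Int.natCast_nonneg x)]
  have h2 : ((cop Y).image fun v => (act (X0 a) (w v)).m).card = (cop Y).card := by
    apply Finset.card_image_of_injOn
    intro v hv v' hv' he
    have := act_inj (reg_X0 ha) _ _ (hw1 v hv) (hw1 v' hv') (m_inj he)
    rw [← hw2 v hv, ← hw2 v' hv', this]
  have h3 := Finset.card_le_card h1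
  rw [h2] at h3
  unfold cnt
  rw [Set.ncard_eq_toFinset_card _ (finite_S [a, 1] N)]
  exact_mod_cast h3

end Q261.Red
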