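import Pool.Agent.Q261.Red.Defs

set_option autoImplicit false

/-!
# Predecessors of a state of the reduction algorithm
-/

namespace Q261.Red

/-- the matrix `!![p, r; q, s]` -/
structure St where
  p : ℤ
  q : ℤ
  r : ℤ
  s : ℤ

/-- the matrix of a state -/
def St.m (Z : St) : Mat := !![Z.p, Z.r; Z.q, Z.s]

/-- the predecessor with parameter `k` -/
def St.pred (Y : St) (k : ℕ) : St :=
  ⟨k * Y.q - Y.s, k ^ 2 * Y.q + k * (Y.p - Y.s) - Y.r, -Y.q, -(Y.p + k * Y.q)⟩

/-- normalised states -/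
def Nrm (Z : St) : Prop := 0 ≤ Z.p ∧ Z.p < Z.q ∧ Z.p * Z.s - Z.q * Z.r = 1

/-- the main region -/
def Reg (Z : St) : Prop := Nrm Z ∧ Z.s < 0 ∧ -Z.q < Z.s

lemma Reg.r_neg {Z : St} (h : Reg Z) : Z.r < 0 := by
  obtain ⟨⟨h1, h2, h3⟩, h4, h5⟩ := h
  by_contra! hr
  have : 0 ≤ Z.q * Z.r := mul_nonneg (by omega) hr
  nlinarith

lemma Reg.q_pos {Z : St} (h : Reg Z) : 0 < Z.q := by
  obtain ⟨⟨h1, h2, h3⟩, h4, h5⟩ := h
  omega

/-- `|r| ≤ |s|` -/
lemma Reg.r_le {Z : St} (h : Reg Z) : Z.s ≤ Z.r := by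
  obtain ⟨⟨h1, h2, h3⟩, h4, h5⟩ := h
  by_contra! hr
  have hq : 0 < Z.q := by omega
  nlinarith

lemma reg_pred {Y : St} (h : Reg Y) {k : ℕ} (hk : 1 ≤ k) : Reg (Y.pred k) ∧ Y.q < (Y.pred k).q := by
  have hr := h.r_neg
  obtain ⟨⟨h1, h2, h3⟩, h4, h5⟩ := h
  have hk' : (1 : ℤ) ≤ k := by exact_mod_cast hk
  have hq : 0 < Y.q := by omega
  have e1 : (k : ℤ) * Y.q ≤ k ^ 2 * Y.q := by nlinarith [mul_nonneg (by omega : (0 : ℤ) ≤ k) hq.le]
  have e2 : Y.p - Y.s ≤ k * (Y.p - Y.s) := by nlinarith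
  have e3 : Y.q ≤ k * Y.q := by nlinarith
  refine ⟨⟨⟨?_, ?_, ?_⟩, ?_, ?_⟩, ?_⟩
  · change 0 ≤ (k : ℤ) * Y.q - Y.s; omega
  · change (k : ℤ) * Y.q - Y.s < k ^ 2 * Y.q + k * (Y.p - Y.s) - Y.r; omega
  · change ((k : ℤ) * Y.q - Y.s) * (-(Y.p + k * Y.q)) -
      (k ^ 2 * Y.q + k * (Y.p - Y.s) - Y.r) * (-Y.q) = 1
    rw [← h3]; ring
  · change -(Y.p + (k : ℤ) * Y.q) < 0; omega
  · change -((k : ℤ) ^ 2 * Y.q + k * (Y.p - Y.s) - Y.r) < -(Y.p + k * Y.q); omega
  · change Y.q < (k : ℤ) ^ 2 * Y.q + k * (Y.p - Y.s) - Y.r; omega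

/-- the algorithm goes from the predecessor back to the state -/
lemma norm12_pred {Y : St} (h : Nrm Y) (k : ℕ) :
    norm12 !![(Y.pred k).s, (Y.pred k).q; (Y.pred k).r, (Y.pred k).p] = Y.m := by
  obtain ⟨h1, h2, h3⟩ := h
  have hq : 0 < Y.q := by omega
  have hr : (Y.pred k).r < 0 := by change -Y.q < 0; omega
  rw [norm12_neg hr, norm12_pos (by omega)]
  have e1 : -(Y.pred k).s = Y.p + k * Y.q := by change -(-(Y.p + (k : ℤ) * Y.q)) = _; ring
  have e2 : -(Y.pred k).r = Y.q := by change -(-Y.q) = _; ring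
  have e3 : (Y.p + k * Y.q) / Y.q = k := by
    rw [Int.add_mul_ediv_right _ _ hq.ne', Int.ediv_eq_zero_of_lt h1 h2, zero_add]
  rw [e1, e2, e3]
  unfold St.m
  congr 1
  ext i j
  fin_cases i <;> fin_cases j <;> simp [St.pred] <;> ring

/-- one step of the algorithm in the main region -/
lemma run3_reg {Z : St} (h : Reg Z) (n : ℕ) :
    run3 (n + 1) Z.m = run3 n (norm12 !![Z.s, Z.q; Z.r, Z.p]) := by
  obtain ⟨⟨h1, h2, h3⟩, h4, h5⟩ := h
  unfold St.m
  rw [run3_succ, if_neg (by omega), if_neg (by omega), if_neg (by omega),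
    if_pos (abs_lt.2 ⟨by omega, by omega⟩)]

/-- every state of the main region is a predecessor -/
lemma exists_pred {Z : St} (h : Reg Z) : ∃ (Y : St) (k : ℕ), Nrm Y ∧ 1 ≤ k ∧ Z = Y.pred k ∧
    Y.q < Z.q ∧ Y.p + Y.s = -(Z.p + Z.s) := by
  have hr := h.r_neg
  have hrs := h.r_le
  obtain ⟨⟨h1, h2, h3⟩, h4, h5⟩ := h
  set Q := -Z.r with hQ
  set k := (-Z.s) / Q with hk
  have hQ0 : 0 < Q := by omega
  have hk1 : 1 ≤ k := by
    rw [hk, Int.le_ediv_iff_mul_le hQ0]; omega
  have hp0 : 0 ≤ -Z.s % Q := Int.emod_nonneg _ hQ0.ne'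
  have hp1 : -Z.s % Q < Q := Int.emod_lt_of_pos _ hQ0
  have hdiv : Q * k + -Z.s % Q = -Z.s := Int.mul_ediv_add_emod _ _
  have hkc : ((k.toNat : ℕ) : ℤ) = k := Int.toNat_of_nonneg (by omega)
  refine ⟨⟨-Z.s % Q, Q, k ^ 2 * Q + k * (-Z.s % Q - (k * Q - Z.p)) - Z.q, k * Q - Z.p⟩,
    k.toNat, ⟨hp0, hp1, ?_⟩, by omega, ?_, ?_, ?_⟩
  · change (-Z.s % Q) * (k * Q - Z.p) - Q * (k ^ 2 * Q + k * (-Z.s % Q - (k * Q - Z.p)) - Z.q) = 1
    have e : -Z.s % Q = -Z.s - Q * k := by linarith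
    rw [e, ← h3, hQ]
    ring
  · unfold St.pred
    obtain ⟨p, q, r, s⟩ := Z
    simp only [St.mk.injEq] at *
    rw [hkc]
    refine ⟨by ring, by ring, by omega, ?_⟩
    linarith
  · change Q < Z.q
    omega
  · change -Z.s % Q + (k * Q - Z.p) = -(Z.p + Z.s)
    linarith

/-! ### classification of the states with output `(0, 1)` which are not in the main region -/

/-- states with `s > 0` -/
lemma alpha_r {p q r s : ℤ} (h : p * s - q * r = 1) (h0 : 0 ≤ p) (h1 : p < q) (hs : 0 < s)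
    (hsq : s < q) (ht : 3 ≤ p + s) {n : ℕ} {M' : Mat} (hn : run3 n !![p, r; q, s] = some M')
    (hM : M' 1 0 = 1) : r = 1 := by
  rcases n with _ | n
  · simp [run3] at hn
  have hp : 1 ≤ p := by
    by_contra hp
    have : p = 0 := by omega
    subst this
    have h2 : q * (-r) = 1 := by linarith
    have h3 := Int.eq_one_or_neg_one_of_mul_eq_one h2
    omega
  have hr0 : 0 ≤ r := by
    by_contra! hr
    nlinarith
  have hr1 : 1 ≤ r := by
    by_contra hr
    have : r = 0 := by omega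
    subst this
    have h2 : p * s = 1 := by linarith
    have h3 := Int.eq_one_or_neg_one_of_mul_eq_one h2
    have h4 := Int.eq_one_or_neg_one_of_mul_eq_one (by rw [mul_comm] at h2; exact h2 : s * p = 1)
    omega
  have hrp : r < p := by
    by_contra! hr
    nlinarith
  rw [run3_succ, if_neg (by omega), if_neg (by omega), if_neg (by omega),
    if_pos (abs_lt.2 ⟨by omega, by omega⟩), norm12_pos (by omega)] at hn
  rcases n with _ | n
  · simp [run3] at hn
  rw [run3_succ] at hn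
  split_ifs at hn with g1 g2 g3 g4
  · exact g1
  · exfalso
    have := Option.some.inj hn
    rw [← this] at hM
    simp at hM
    exact g1 hM
  all_goals
    exfalso
    apply g2
    have : 0 ≤ s / r * r := mul_nonneg (Int.ediv_nonneg (by omega) (by omega)) (by omega)
    omega

/-- the four kinds of states with output `(0, 1)` -/
lemma classify {Y : St} (h : Nrm Y) {t : ℤ} (ht : 3 ≤ t) (htr : Y.p + Y.s = t ∨ Y.p + Y.s = -t)
    {n : ℕ} {M' : Mat} (hn : run3 n Y.m = some M') (hM : M' 1 0 = 1) :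
    Reg Y ∨ (Y.q = 1 ∧ Y.p = 0 ∧ Y.r = -1 ∧ (Y.s = t ∨ Y.s = -t)) ∨
    (0 < Y.s ∧ Y.s < Y.q ∧ Y.r = 1 ∧ Y.p + Y.s = t) ∨
    (Y.s < -Y.q ∧ Y.p - Y.q + Y.r - Y.s = 1 ∧ Y.p + Y.s = -t ∧ -Y.q - Y.s < Y.q) := by
  obtain ⟨p, q, r, s⟩ := Y
  obtain ⟨h1, h2, h3⟩ := h
  simp only [Reg, Nrm, St.m] at *
  rcases n with _ | n
  · simp [run3] at hn
  by_cases hq : q = 1
  · subst hq
    have hp : p = 0 := by omega
    subst hp
    right; left
    refine ⟨rfl, rfl, by linarith, ?_⟩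
    simpa using htr
  have hn0 := hn
  rw [run3_succ, if_neg hq] at hn
  have hs0 : s ≠ 0 := by
    intro h0
    subst h0
    have h4 : q * (-r) = 1 := by linarith
    have h5 := Int.eq_one_or_neg_one_of_mul_eq_one h4
    omega
  split_ifs at hn with g2 g3 g4
  · exfalso
    have := Option.some.inj hn
    rw [← this] at hM
    simp at hM
    exact hq hM
  · -- `s < -q`
    right; right; right
    have hsq : -q - s < q := by
      by_contra hcon
      rcases n with _ | n
      · simp [run3] at hn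
      rw [run3_succ, if_neg hq] at hn
      have hne : -q - s ≠ q := by
        intro h4
        have h5 : q * (-2 * p - r) = 1 := by
          have : s = -2 * q := by linarith
          rw [this] at h3
          linarith
        have h6 := Int.eq_one_or_neg_one_of_mul_eq_one h5
        omega
      rw [if_pos (by omega)] at hn
      have := Option.some.inj hn
      rw [← this] at hM
      simp at hM
      exact hq hM
    have hp0 : p ≠ 0 := by
      intro h0
      subst h0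
      have h4 : q * (-r) = 1 := by linarith
      have h5 := Int.eq_one_or_neg_one_of_mul_eq_one h4
      omega
    have htr' : p + s = -t := by
      rcases htr with h | h
      · omega
      · exact h
    refine ⟨g3, ?_, htr', hsq⟩
    exact alpha_r (p := q - p) (q := q) (r := p - q + r - s) (s := -q - s)
      (by linarith [h3]) (by omega) (by omega) (by omega) hsq (by omega) hn hM
  · rcases lt_or_gt_of_ne hs0 with hs | hs
    · left
      have := abs_lt.1 g4
      exact ⟨⟨h1, h2, h3⟩, hs, by omega⟩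
    · right; right; left
      have h5 := abs_lt.1 g4
      have htr' : p + s = t := by
        rcases htr with h | h
        · exact h
        · omega
      exact ⟨hs, h5.2, alpha_r h3 h1 h2 hs h5.2 (by omega) hn0 hM, htr'⟩

end Q261.Red
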