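import Pool.Agent.Q261.Red.Low

set_option autoImplicit false

/-!
# Upper bound for the number of matrices with output `(0, 1)`
-/

namespace Q261.Red

/-- the base states -/
def bs (t : ℤ) (τ P i : ℕ) : St :=
  if τ = 0 then (St.mk 0 1 (-1) t).pred (i + t.toNat)
  else if τ = 1 then (St.mk 0 1 (-1) (-t)).pred i
  else if τ = 2 then (St.mk P (P * (t - P) - 1) 1 (t - P)).pred i
  else (St.mk (P * (t - P) - 1 - P) (P * (t - P) - 1) (1 + 2 * P - (P * (t - P) - 1) - t)
    (-(P * (t - P) - 1) - t + P)).pred i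

/-- the constant in the lower bound for the size of the base states -/
def bc (t : ℕ) (τ : ℕ) : ℕ := if τ < 2 then 1 else t - 3

/-- states of the main region whose parent is not in the main region -/
lemma base_case {t : ℕ} (ht : 5 ≤ t) {Y : St} {k : ℕ} (hY : Nrm Y) (hZ : Reg (Y.pred k))
    (htr : Y.p + Y.s = t ∨ Y.p + Y.s = -t)
    (hcl : (Y.q = 1 ∧ Y.p = 0 ∧ Y.r = -1 ∧ (Y.s = t ∨ Y.s = -(t : ℤ))) ∨
      (0 < Y.s ∧ Y.s < Y.q ∧ Y.r = 1 ∧ Y.p + Y.s = t) ∨
      (Y.s < -Y.q ∧ Y.p - Y.q + Y.r - Y.s = 1 ∧ Y.p + Y.s = -(t : ℤ) ∧ -Y.q - Y.s < Y.q)) :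
    ∃ τ P i : ℕ, τ < 4 ∧ P ≤ t ∧ (τ < 2 → P = 0) ∧ 1 ≤ i ∧ Y.pred k = bs t τ P i ∧
      (bc t τ : ℤ) * (i : ℤ) ^ 2 ≤ (Y.pred k).q := by
  obtain ⟨p, q, r, s⟩ := Y
  obtain ⟨⟨z1, z2, z3⟩, z4, z5⟩ := hZ
  obtain ⟨y1, y2, y3⟩ := hY
  simp only at hcl htr y1 y2 y3
  have ht' : (5 : ℤ) ≤ t := by exact_mod_cast ht
  have hk0 : (0 : ℤ) ≤ k := Int.natCast_nonneg _
  simp only [St.pred] at z1 z2 z3 z4 z5
  rcases hcl with ⟨rfl, rfl, rfl, hs⟩ | ⟨hs, hsq, rfl, hps⟩ | ⟨hs, hr, hps, hsq⟩
  · rcases hs with rfl | rfl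
    · -- `s = t`
      have hk : (t : ℤ) + 1 ≤ k := by
        by_contra hcon
        have : (k : ℤ) = t := by omega
        rw [this] at z5
        nlinarith
      refine ⟨0, 0, k - t, by norm_num, by omega, fun _ => rfl, by omega, ?_, ?_⟩
      · rw [bs, if_pos rfl]
        congr 1
        omega
      · simp only [St.pred, bc, if_pos (show 0 < 2 by norm_num)]
        have : ((k - t : ℕ) : ℤ) = k - t := by
          rw [Nat.cast_sub (by omega)]
        rw [this]
        push_cast
        nlinarith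
    · refine ⟨1, 0, k, by norm_num, by omega, fun _ => rfl, by omega, ?_, ?_⟩
      · rw [bs, if_neg (by norm_num), if_pos rfl]
      · simp only [St.pred, bc, if_pos (show 1 < 2 by norm_num)]
        push_cast
        nlinarith
  · -- type alpha
    have hp : 2 ≤ p := by
      by_contra hcon
      rcases (by omega : p = 0 ∨ p = 1) with rfl | rfl
      · omega
      · omega
    have hs2 : 2 ≤ s := by
      by_contra hcon
      have : s = 1 := by omega
      subst this
      omega
    have hk2 : 2 ≤ k := by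
      by_contra hcon
      have hk1 : k ≤ 1 := by omega
      interval_cases k
      · push_cast at *; nlinarith
      · push_cast at *; nlinarith
    have hq : q = p * (t - p) - 1 := by
      have : s = t - p := by linarith
      rw [this] at y3; linarith
    have hps' : s = t - p := by linarith
    refine ⟨2, p.toNat, k, by norm_num, by omega, fun h => absurd h (by norm_num), by omega, ?_, ?_⟩
    · rw [bs, if_neg (by norm_num), if_neg (by norm_num), if_pos rfl]
      have : ((p.toNat : ℕ) : ℤ) = p := Int.toNat_of_nonneg (by omega)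
      rw [this, ← hq, ← hps']
    · simp only [St.pred, bc, if_neg (show ¬ (2 < 2) by norm_num)]
      rw [Nat.cast_sub (by omega)]
      push_cast
      have hk2' : (2 : ℤ) ≤ k := by exact_mod_cast hk2
      -- `2 t - 5 ≤ q`
      have hq5 : 2 * (t : ℤ) - 5 ≤ q := by
        rw [hq]
        nlinarith [mul_nonneg (show 0 ≤ p - 2 by omega) (show 0 ≤ (t : ℤ) - 2 - p by omega)]
      have e1 : (k : ℤ) ^ 2 * q ≤ 2 * (k ^ 2 * q + k * (p - s) - 1) := by
        have : (k : ℤ) * 1 ≤ k * (k * q + 2 * (p - s)) := by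
          apply mul_le_mul_of_nonneg_left _ hk0
          nlinarith
        nlinarith
      have e2 : (k : ℤ) ^ 2 * (2 * t - 5) ≤ k ^ 2 * q :=
        mul_le_mul_of_nonneg_left hq5 (by positivity)
      have e3 : (0 : ℤ) ≤ k ^ 2 := by positivity
      nlinarith
  · -- `s < -q`
    have hk1 : 1 ≤ k := by
      by_contra hcon
      have : k = 0 := by omega
      subst this
      push_cast at *
      nlinarith
    have hk1' : (1 : ℤ) ≤ k := by exact_mod_cast hk1
    -- the image under `D`
    set P := q - p with hP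
    have hsP : s = -q - (t - P) := by linarith
    have hr' : r = 1 + 2 * P - q - t := by linarith
    have hq : q = P * (t - P) - 1 := by
      have hpP : p = q - P := by linarith
      rw [hpP, hsP, hr'] at y3
      linarith [y3, show (q - P) * (-q - (t - P)) - q * (1 + 2 * P - q - t) = P * (t - P) - q by ring]
    have hP1 : 1 ≤ P := by omega
    have htP : 1 ≤ (t : ℤ) - P := by omega
    have hP2 : 2 ≤ P := by
      by_contra hcon
      have : P = 1 := by omega
      rw [this] at hq
      omega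
    have htP2 : 2 ≤ (t : ℤ) - P := by
      by_contra hcon
      have h1 : (t : ℤ) - P = 1 := by omega
      rw [h1] at hq
      have : p = -1 := by linarith
      omega
    refine ⟨3, P.toNat, k, by norm_num, by omega, fun h => absurd h (by norm_num), by omega, ?_, ?_⟩
    · rw [bs, if_neg (by norm_num), if_neg (by norm_num), if_neg (by norm_num)]
      have h1 : ((P.toNat : ℕ) : ℤ) = P := Int.toNat_of_nonneg (by omega)
      have h2 : p = q - P := by linarith
      have h3 : s = -q - t + P := by linarith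
      rw [h1, ← hq, ← h2, ← hr', ← h3]
    · simp only [St.pred, bc, if_neg (show ¬ (3 < 2) by norm_num)]
      rw [Nat.cast_sub (by omega)]
      push_cast
      have hq5 : 2 * (t : ℤ) - 5 ≤ q := by
        rw [hq]
        nlinarith [mul_nonneg (show 0 ≤ P - 2 by omega) (show 0 ≤ (t : ℤ) - 2 - P by omega)]
      have hr0 : r < 0 := by
        by_contra! h0
        nlinarith
      have e1 : (k : ℤ) ^ 2 * q ≤ k ^ 2 * q + k * (p - s) - r := by
        have : 0 ≤ (k : ℤ) * (p - s) := mul_nonneg hk0 (by omega)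
        linarith
      have e2 : ((t : ℤ) - 3) * k ^ 2 ≤ k ^ 2 * q := by
        rw [mul_comm]
        exact mul_le_mul_of_nonneg_left (by omega) (by positivity)
      linarith

/-- **structure**: every state of the main region with output `(0, 1)` lies above a base state -/
lemma structure_reg {t : ℕ} (ht : 5 ≤ t) (n : ℕ) : ∀ Z : St, Reg Z →
    (Z.p + Z.s = t ∨ Z.p + Z.s = -(t : ℤ)) → ∀ M' : Mat, run3 n Z.m = some M' → M' 1 0 = 1 →
    ∃ (τ P i : ℕ) (l : List ℕ), τ < 4 ∧ P ≤ t ∧ (τ < 2 → P = 0) ∧ 1 ≤ i ∧ PosL l ∧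
      Z = act (bs t τ P i) l ∧ Reg (bs t τ P i) ∧ (bc t τ : ℤ) * (i : ℤ) ^ 2 ≤ (bs t τ P i).q := by
  induction n with
  | zero => intro Z _ _ M' h; simp [run3] at h
  | succ n ih =>
    intro Z hZ htr M' hrun hM
    obtain ⟨Y, k, hY, hk, rfl, hlt, htrY⟩ := exists_pred hZ
    rw [run3_reg hZ, norm12_pred hY] at hrun
    have htr' : Y.p + Y.s = t ∨ Y.p + Y.s = -(t : ℤ) := by
      rcases htr with h | h
      · right; linarith
      · left; linarith
    rcases classify hY (by exact_mod_cast (by omega : 3 ≤ t)) htr' hrun hM with h | h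
    · obtain ⟨τ, P, i, l, h1, h2, h3, h4, h5, h6, h7, h8⟩ := ih Y h htr' M' hrun hM
      have hl' : PosL (l ++ [k]) := by
        intro j hj
        rcases List.mem_append.1 hj with hj | hj
        · exact h5 j hj
        · rw [List.mem_singleton.1 hj]; exact hk
      exact ⟨τ, P, i, l ++ [k], h1, h2, h3, h4, hl', by rw [act_append, ← h6], h7, h8⟩
    · obtain ⟨τ, P, i, h1, h2, h3, h4, h5, h6⟩ := base_case ht hY hZ htr' h
      refine ⟨τ, P, i, [], h1, h2, h3, h4, fun j hj => by simp at hj, by rw [h5]; rfl, ?_, ?_⟩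
      · rw [← h5]; exact hZ
      · rw [← h5]; exact h6

/-! ### translations -/

/-- the conjugate by a translation -/
def tr (κ : ℤ) (Z : St) : St :=
  ⟨Z.p + κ * Z.q, Z.q, Z.r - κ * (Z.p - Z.s) - κ ^ 2 * Z.q, Z.s - κ * Z.q⟩

/-- every matrix is, up to sign, a translate of its normalisation -/
lemma exists_norm {p q r s : ℤ} (hdet : p * s - q * r = 1) (hq : q ≠ 0) :
    ∃ (Z : St) (κ : ℤ), Nrm Z ∧ norm12 !![p, r; q, s] = Z.m ∧
      ((0 < q ∧ tr κ Z = ⟨p, q, r, s⟩) ∨ (q < 0 ∧ tr κ Z = ⟨-p, -q, -r, -s⟩)) := by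
  have key : ∀ p q r s : ℤ, p * s - q * r = 1 → 0 < q → ∃ (Z : St) (κ : ℤ), Nrm Z ∧
      norm12 !![p, r; q, s] = Z.m ∧ tr κ Z = ⟨p, q, r, s⟩ := by
    intro p q r s h hq
    refine ⟨⟨p - p / q * q, q, r + p / q * (p - s - p / q * q), s + p / q * q⟩, p / q, ?_, ?_, ?_⟩
    · have h1 := Int.emod_nonneg p hq.ne'
      have h2 := Int.emod_lt_of_pos p hq
      have h3 : p - p / q * q = p % q := by
        have := Int.emod_add_mul_ediv p q
        linarith [mul_comm q (p / q)]
      refine ⟨?_, ?_, ?_⟩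
      · change 0 ≤ p - p / q * q
        rw [h3]; exact h1
      · change p - p / q * q < q
        rw [h3]; exact h2
      · change (p - p / q * q) * (s + p / q * q) - q * (r + p / q * (p - s - p / q * q)) = 1
        rw [← h]; ring
    · rw [norm12_pos hq]; rfl
    · simp only [tr, St.mk.injEq]
      refine ⟨by ring, trivial, by ring, by ring⟩
  rcases lt_or_gt_of_ne hq with h | h
  · obtain ⟨Z, κ, h1, h2, h3⟩ := key (-p) (-q) (-r) (-s) (by linarith) (by omega)
    exact ⟨Z, κ, h1, by rw [norm12_neg h]; exact h2, Or.inr ⟨h, h3⟩⟩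
  · obtain ⟨Z, κ, h1, h2, h3⟩ := key p q r s hdet h
    exact ⟨Z, κ, h1, h2, Or.inl ⟨h, h3⟩⟩

/-- the translation parameter -/
def kap (side j : ℕ) : ℤ :=
  if side = 0 then j else if side = 1 then 0 else if side = 2 then -1 else -(j + 1)

lemma exists_kap {Z : St} (h : Reg Z) {κ : ℤ} {N : ℕ} (hq : Z.q ≤ N) (hr : -(N : ℤ) ≤ (tr κ Z).r) :
    ∃ side j : ℕ, side < 4 ∧ 1 ≤ j ∧ κ = kap side j ∧ (j : ℤ) ^ 2 * Z.q ≤ N := by
  have hrn := h.r_neg
  obtain ⟨⟨h1, h2, h3⟩, h4, h5⟩ := h
  have hr' : -(N : ℤ) ≤ Z.r - κ * (Z.p - Z.s) - κ ^ 2 * Z.q := hr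
  rcases lt_trichotomy κ 0 with hk | hk | hk
  · rcases (by omega : κ = -1 ∨ κ ≤ -2) with hk1 | hk1
    · exact ⟨2, 1, by norm_num, le_rfl, by rw [hk1]; rfl, by simpa using hq⟩
    · refine ⟨3, (-κ - 1).toNat, by norm_num, by omega, ?_, ?_⟩
      · have : (((-κ - 1).toNat : ℕ) : ℤ) = -κ - 1 := Int.toNat_of_nonneg (by omega)
        simp only [kap, if_neg (show ¬ (3 = 0) by norm_num), if_neg (show ¬ (3 = 1) by norm_num),
          if_neg (show ¬ (3 = 2) by norm_num), this]
        ring
      · have e : (((-κ - 1).toNat : ℕ) : ℤ) = -κ - 1 := Int.toNat_of_nonneg (by omega)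
        rw [e]
        set m := -κ with hm
        have hκ : κ = -m := by omega
        rw [hκ] at hr'
        -- `q * (-r') = (m q - p)(m q + s) + 1`
        have hq0 : 0 < Z.q := by omega
        have e1 : Z.q * (-(Z.r - -m * (Z.p - Z.s) - (-m) ^ 2 * Z.q)) =
            (m * Z.q - Z.p) * (m * Z.q + Z.s) + 1 := by
          linear_combination h3
        have e2 : (m - 1) * Z.q ≤ m * Z.q - Z.p := by linarith
        have e3 : (m - 1) * Z.q ≤ m * Z.q + Z.s := by linarith
        have e4 : 0 ≤ (m - 1) * Z.q := mul_nonneg (by omega) hq0.le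
        have e5 : ((m - 1) * Z.q) * ((m - 1) * Z.q) ≤ (m * Z.q - Z.p) * (m * Z.q + Z.s) :=
          mul_le_mul e2 e3 e4 (e4.trans e2)
        have e6 : Z.q * ((m - 1) ^ 2 * Z.q) ≤ Z.q * N := by
          have : Z.q * (-(Z.r - -m * (Z.p - Z.s) - (-m) ^ 2 * Z.q)) ≤ Z.q * N :=
            mul_le_mul_of_nonneg_left (by omega) hq0.le
          nlinarith
        exact le_of_mul_le_mul_left e6 hq0
  · exact ⟨1, 1, by norm_num, le_rfl, by rw [hk]; rfl, by simpa using hq⟩
  · refine ⟨0, κ.toNat, by norm_num, by omega, ?_, ?_⟩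
    · simp only [kap, if_true]
      exact (Int.toNat_of_nonneg hk.le).symm
    · rw [Int.toNat_of_nonneg hk.le]
      have : 0 ≤ κ * (Z.p - Z.s) := mul_nonneg hk.le (by omega)
      linarith

/-! ### counting codes -/

/-- the matrix of a code -/
noncomputable def dec (t : ℕ) (σ side par τ P i x y j : ℕ) : Mat :=
  if σ = 0 then (tr (kap side j) (act (bs t τ P i) (wordOf (x, y) par))).m
  else -(tr (kap side j) (act (bs t τ P i) (wordOf (x, y) par))).m

open Classical in
/-- the matrices of the codes of size `L` -/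
noncomputable def codes (t : ℕ) (σ side par τ P L : ℕ) : Finset Mat :=
  (Finset.Icc 1 L).biUnion fun i => (Finset.Icc 1 (L / i)).biUnion fun x =>
    (Finset.range (x + 1)).biUnion fun y => (Finset.Icc 1 (L / i / x)).image fun j =>
      dec t σ side par τ P i x y j

lemma card_codes (t σ side par τ P L : ℕ) : ((codes t σ side par τ P L).card : ℝ) ≤ 4 * (L : ℝ) ^ 2 := by
  classical
  have h1 : (codes t σ side par τ P L).card ≤ ∑ i ∈ Finset.Icc 1 L, 2 * (L / i) ^ 2 := by
    refine Finset.card_biUnion_le.trans (Finset.sum_le_sum fun i _ => ?_)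
    refine Finset.card_biUnion_le.trans ?_
    calc ∑ x ∈ Finset.Icc 1 (L / i), _ ≤ ∑ x ∈ Finset.Icc 1 (L / i), 2 * (L / i) := by
          refine Finset.sum_le_sum fun x hx => ?_
          have hx1 : 1 ≤ x := (Finset.mem_Icc.1 hx).1
          refine Finset.card_biUnion_le.trans ?_
          calc ∑ y ∈ Finset.range (x + 1), _ ≤ ∑ y ∈ Finset.range (x + 1), L / i / x := by
                refine Finset.sum_le_sum fun y _ => ?_
                refine Finset.card_image_le.trans ?_
                rw [Nat.card_Icc, Nat.add_sub_cancel]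
            _ = (x + 1) * (L / i / x) := by simp
            _ ≤ 2 * x * (L / i / x) := Nat.mul_le_mul_right _ (by omega)
            _ ≤ 2 * (L / i) := by
                rw [mul_assoc]
                exact Nat.mul_le_mul_left _ (Nat.mul_div_le _ _)
      _ = 2 * (L / i) ^ 2 := by
          rw [Finset.sum_const, Nat.card_Icc, Nat.add_sub_cancel, smul_eq_mul]; ring
  have h2 : ∀ n : ℕ, 1 ≤ n → ∑ i ∈ Finset.Icc 1 n, (1 : ℝ) / (i : ℝ) ^ 2 ≤ 2 - 1 / n := by
    intro n hn
    induction n, hn using Nat.le_induction with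
    | base => norm_num
    | succ n hn ih =>
      rw [Finset.sum_Icc_succ_top (by omega)]
      have h1 : (1 : ℝ) ≤ n := by exact_mod_cast hn
      have h2 : (1 : ℝ) / ((n + 1 : ℕ) : ℝ) ^ 2 ≤ 1 / n - 1 / ((n + 1 : ℕ) : ℝ) := by
        push_cast
        rw [div_sub_div _ _ (by positivity) (by positivity), div_le_div_iff₀ (by positivity)
          (by positivity)]
        nlinarith
      linarith
  have h3 : ((∑ i ∈ Finset.Icc 1 L, 2 * (L / i) ^ 2 : ℕ) : ℝ) ≤ 4 * (L : ℝ) ^ 2 := by
    push_cast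
    rcases Nat.eq_zero_or_pos L with rfl | hL
    · simp
    calc ∑ i ∈ Finset.Icc 1 L, 2 * ((L / i : ℕ) : ℝ) ^ 2
        ≤ ∑ i ∈ Finset.Icc 1 L, 2 * (L : ℝ) ^ 2 * (1 / (i : ℝ) ^ 2) := by
          refine Finset.sum_le_sum fun i _ => ?_
          have h4 : ((L / i : ℕ) : ℝ) ≤ (L : ℝ) / i := Nat.cast_div_le
          have h5 : ((L / i : ℕ) : ℝ) ^ 2 ≤ ((L : ℝ) / i) ^ 2 :=
            pow_le_pow_left₀ (Nat.cast_nonneg _) h4 2
          calc 2 * ((L / i : ℕ) : ℝ) ^ 2 ≤ 2 * ((L : ℝ) / i) ^ 2 := by linarith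
            _ = _ := by ring
      _ = 2 * (L : ℝ) ^ 2 * ∑ i ∈ Finset.Icc 1 L, (1 : ℝ) / (i : ℝ) ^ 2 := by rw [Finset.mul_sum]
      _ ≤ 2 * (L : ℝ) ^ 2 * 2 := by
          apply mul_le_mul_of_nonneg_left _ (by positivity)
          have := h2 L hL
          have h6 : (0 : ℝ) ≤ 1 / L := by positivity
          linarith
      _ = _ := by ring
  exact (Nat.cast_le.2 h1).trans h3

open Classical in
/-- all the matrices of codes -/
noncomputable def allCodes (t N : ℕ) : Finset Mat :=
  (Finset.range 2).biUnion fun σ => (Finset.range 4).biUnion fun side =>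
    (Finset.range 2).biUnion fun par =>
      ((Finset.range 2).biUnion fun τ => codes t σ side par τ 0 (Nat.sqrt N)) ∪
      ((Finset.Icc 2 3).biUnion fun τ => (Finset.range (t + 1)).biUnion fun P =>
        codes t σ side par τ P (Nat.sqrt (N / (t - 3))))

lemma card_allCodes (t N : ℕ) : ((allCodes t N).card : ℝ) ≤
    16 * (8 * (Nat.sqrt N : ℝ) ^ 2 + 8 * (t + 1) * (Nat.sqrt (N / (t - 3)) : ℝ) ^ 2) := by
  classical
  have key : ∀ σ side par : ℕ, ((((Finset.range 2).biUnion fun τ => codes t σ side par τ 0 (Nat.sqrt N)) ∪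
      ((Finset.Icc 2 3).biUnion fun τ => (Finset.range (t + 1)).biUnion fun P =>
        codes t σ side par τ P (Nat.sqrt (N / (t - 3)))) : Finset Mat).card : ℝ) ≤
      8 * (Nat.sqrt N : ℝ) ^ 2 + 8 * (t + 1) * (Nat.sqrt (N / (t - 3)) : ℝ) ^ 2 := by
    intro σ side par
    have h1 : (((Finset.range 2).biUnion fun τ => codes t σ side par τ 0 (Nat.sqrt N)).card : ℝ) ≤
        8 * (Nat.sqrt N : ℝ) ^ 2 := by
      have h2 : (((Finset.range 2).biUnion fun τ => codes t σ side par τ 0 (Nat.sqrt N)).card : ℝ) ≤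
          ∑ τ ∈ Finset.range 2, ((codes t σ side par τ 0 (Nat.sqrt N)).card : ℝ) := by
        exact_mod_cast Finset.card_biUnion_le
      refine h2.trans ((Finset.sum_le_sum fun τ _ => card_codes _ _ _ _ _ _ _).trans ?_)
      rw [Finset.sum_const, Finset.card_range, nsmul_eq_mul]
      push_cast; linarith
    have h3 : (((Finset.Icc 2 3).biUnion fun τ => (Finset.range (t + 1)).biUnion fun P =>
        codes t σ side par τ P (Nat.sqrt (N / (t - 3)))).card : ℝ) ≤
        8 * (t + 1) * (Nat.sqrt (N / (t - 3)) : ℝ) ^ 2 := by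
      have h4 : (((Finset.Icc 2 3).biUnion fun τ => (Finset.range (t + 1)).biUnion fun P =>
          codes t σ side par τ P (Nat.sqrt (N / (t - 3)))).card : ℝ) ≤
          ∑ τ ∈ Finset.Icc 2 3, ∑ P ∈ Finset.range (t + 1),
            ((codes t σ side par τ P (Nat.sqrt (N / (t - 3)))).card : ℝ) := by
        exact_mod_cast Finset.card_biUnion_le.trans
          (Finset.sum_le_sum fun τ _ => Finset.card_biUnion_le)
      refine h4.trans ((Finset.sum_le_sum fun τ _ => Finset.sum_le_sum fun P _ =>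
        card_codes _ _ _ _ _ _ _).trans ?_)
      rw [Finset.sum_const, Finset.sum_const, Finset.card_range, Nat.card_Icc, nsmul_eq_mul,
        nsmul_eq_mul]
      push_cast
      linarith
    have h5 := Finset.card_union_le ((Finset.range 2).biUnion fun τ => codes t σ side par τ 0 (Nat.sqrt N))
      ((Finset.Icc 2 3).biUnion fun τ => (Finset.range (t + 1)).biUnion fun P =>
        codes t σ side par τ P (Nat.sqrt (N / (t - 3))))
    have h6 : ((((Finset.range 2).biUnion fun τ => codes t σ side par τ 0 (Nat.sqrt N)) ∪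
      ((Finset.Icc 2 3).biUnion fun τ => (Finset.range (t + 1)).biUnion fun P =>
        codes t σ side par τ P (Nat.sqrt (N / (t - 3)))) : Finset Mat).card : ℝ) ≤
        (((Finset.range 2).biUnion fun τ => codes t σ side par τ 0 (Nat.sqrt N)).card : ℝ) +
        (((Finset.Icc 2 3).biUnion fun τ => (Finset.range (t + 1)).biUnion fun P =>
        codes t σ side par τ P (Nat.sqrt (N / (t - 3)))).card : ℝ) := by exact_mod_cast h5
    linarith
  set B := 8 * (Nat.sqrt N : ℝ) ^ 2 + 8 * (t + 1) * (Nat.sqrt (N / (t - 3)) : ℝ) ^ 2 with hB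
  have h1 : ((allCodes t N).card : ℝ) ≤ ∑ σ ∈ Finset.range 2, ∑ side ∈ Finset.range 4,
      ∑ par ∈ Finset.range 2, ((((Finset.range 2).biUnion fun τ => codes t σ side par τ 0 (Nat.sqrt N)) ∪
      ((Finset.Icc 2 3).biUnion fun τ => (Finset.range (t + 1)).biUnion fun P =>
        codes t σ side par τ P (Nat.sqrt (N / (t - 3)))) : Finset Mat).card : ℝ) := by
    exact_mod_cast Finset.card_biUnion_le.trans (Finset.sum_le_sum fun σ _ =>
      Finset.card_biUnion_le.trans (Finset.sum_le_sum fun side _ => Finset.card_biUnion_le))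
  refine h1.trans ((Finset.sum_le_sum fun σ _ => Finset.sum_le_sum fun side _ =>
    Finset.sum_le_sum fun par _ => key σ side par).trans ?_)
  simp only [Finset.sum_const, Finset.card_range, nsmul_eq_mul]
  push_cast
  linarith

end Q261.Red
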