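import Pool.Agent.Q261.Red.Up

set_option autoImplicit false

/-!
# Upper bound for the number of matrices with output `(0, 1)`, end
-/

namespace Q261.Red

open Filter Topology

/-- the exceptional matrices -/
noncomputable def exc (t N : ℕ) : Finset Mat := by
  classical
  exact ((Finset.Icc (-((t * (Nat.sqrt N + 2) : ℕ) : ℤ)) ((t * (Nat.sqrt N + 2) : ℕ) : ℤ)) ×ˢ
    ((Finset.Icc (-((t ^ 2 : ℕ) : ℤ)) ((t ^ 2 : ℕ) : ℤ)) ×ˢ ({(t : ℤ), -(t : ℤ)} : Finset ℤ))).image
    fun v => (!![v.1, (v.1 * (v.2.2 - v.1) - 1) / v.2.1; v.2.1, v.2.2 - v.1] : Mat)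

lemma card_exc (t N : ℕ) : ((exc t N).card : ℝ) ≤
    (2 * (t * (Nat.sqrt N + 2)) + 1) * ((2 * t ^ 2 + 1) * 2) := by
  classical
  have h1 : (exc t N).card ≤ (2 * (t * (Nat.sqrt N + 2)) + 1) * ((2 * t ^ 2 + 1) * 2) := by
    refine Finset.card_image_le.trans ?_
    rw [Finset.card_product, Finset.card_product, Int.card_Icc, Int.card_Icc]
    refine Nat.mul_le_mul (by omega) (Nat.mul_le_mul ?_ ?_)
    · have : ((t ^ 2 : ℕ) : ℤ) + 1 - -((t ^ 2 : ℕ) : ℤ) = ((2 * t ^ 2 + 1 : ℕ) : ℤ) := by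
        push_cast; ring
      rw [this, Int.toNat_natCast]
    · exact Finset.card_le_two
  exact_mod_cast h1

lemma trace_lls {M : Mat} {a : ℕ} (h : HasLLS M [1, a]) :
    M 0 0 + M 1 1 = ((a + 2 : ℕ) : ℤ) ∨ M 0 0 + M 1 1 = -((a + 2 : ℕ) : ℤ) := by
  obtain ⟨g, hg⟩ := h
  have e1 : Matrix.trace ((g : Mat) * M * ((g⁻¹ : GL (Fin 2) ℤ) : Mat)) = Matrix.trace M := by
    rw [Matrix.trace_mul_cycle, Units.inv_mul, one_mul]
  have e2 : Matrix.trace (MP [1, a]) = ((a + 2 : ℕ) : ℤ) := by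
    simp only [MP, Ma, List.map_cons, List.map_nil, List.prod_cons, List.prod_nil, mul_one]
    rw [Matrix.mul_fin_two, Matrix.trace_fin_two_of]
    push_cast; ring
  rw [← Matrix.trace_fin_two, ← e1]
  rcases hg with h | h
  · left; rw [h, e2]
  · right; rw [h, Matrix.trace_neg, e2]

lemma three_q {t : ℕ} (ht : 5 ≤ t) {Z : St} (hZ : Nrm Z)
    (hcl : (Z.q = 1 ∧ Z.p = 0 ∧ Z.r = -1 ∧ (Z.s = t ∨ Z.s = -(t : ℤ))) ∨
      (0 < Z.s ∧ Z.s < Z.q ∧ Z.r = 1 ∧ Z.p + Z.s = t) ∨
      (Z.s < -Z.q ∧ Z.p - Z.q + Z.r - Z.s = 1 ∧ Z.p + Z.s = -(t : ℤ) ∧ -Z.q - Z.s < Z.q)) :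
    Z.q ≤ ((t ^ 2 : ℕ) : ℤ) := by
  obtain ⟨p, q, r, s⟩ := Z
  obtain ⟨h1, h2, h3⟩ := hZ
  simp only at hcl h1 h2 h3 ⊢
  have ht' : (5 : ℤ) ≤ t := by exact_mod_cast ht
  push_cast
  rcases hcl with ⟨rfl, -⟩ | ⟨hs, hsq, rfl, hps⟩ | ⟨hs, hr, hps, hsq⟩
  · nlinarith
  · have : s = t - p := by linarith
    subst this
    nlinarith
  · have e1 : r = 1 - p + q + s := by linarith
    have e2 : s = -t - p := by linarith
    subst e2
    rw [e1] at h3
    -- with `P = q - p`, `q = P (t - P) - 1`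
    nlinarith [sq_nonneg ((q - p) * 2 - t), sq_nonneg (t : ℤ)]

/-- every counted matrix is coded or exceptional -/
theorem S_subset {a : ℕ} (ha : 3 ≤ a) (N : ℕ) :
    ((finite_S [1, a] N).toFinset : Set Mat) ⊆ (allCodes (a + 2) N : Set Mat) ∪ (exc (a + 2) N : Set Mat) := by
  classical
  intro M hM
  rw [Finset.mem_coe, Set.Finite.mem_toFinset] at hM
  obtain ⟨hdet, hN, hlls, M', ⟨n, hn⟩, hout⟩ := hM
  have hM1 : M' 1 0 = 1 := by
    rcases hout with h | h
    · exact h.2.2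
    · exact absurd ⟨a, rfl⟩ h.1
  have htrM := trace_lls hlls
  set t := a + 2 with ht
  have ht5 : 5 ≤ t := by omega
  have ht5' : (5 : ℤ) ≤ t := by exact_mod_cast ht5
  obtain ⟨p, q, r, s, rfl⟩ := eta M
  have hp := hN 0 0
  have hr := hN 0 1
  have hq := hN 1 0
  have hs := hN 1 1
  rw [Matrix.det_fin_two_of] at hdet
  simp only [Matrix.of_apply, Matrix.cons_val', Matrix.cons_val_zero, Matrix.cons_val_one,
    Matrix.cons_val_fin_one] at hp hr hq hs htrM
  have hdet' : p * s - q * r = 1 := by linarith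
  have hq0 : q ≠ 0 := by
    rintro rfl
    have h1 : p * s = 1 := by linarith
    have h2 := Int.eq_one_or_neg_one_of_mul_eq_one h1
    have h3 := Int.eq_one_or_neg_one_of_mul_eq_one (by rw [mul_comm] at h1; exact h1 : s * p = 1)
    omega
  obtain ⟨Z, κ, hZ, hnorm, hor⟩ := exists_norm hdet' hq0
  rw [hnorm] at hn
  rw [abs_le] at hp hr hq hs
  -- the trace and the entries of `Z`
  have hZtr : Z.p + Z.s = t ∨ Z.p + Z.s = -(t : ℤ) := by
    rcases hor with ⟨-, h⟩ | ⟨-, h⟩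
    · have h1 : Z.p + κ * Z.q = p := congrArg St.p h
      have h2 : Z.s - κ * Z.q = s := congrArg St.s h
      rcases htrM with h3 | h3
      · left; linarith
      · right; linarith
    · have h1 : Z.p + κ * Z.q = -p := congrArg St.p h
      have h2 : Z.s - κ * Z.q = -s := congrArg St.s h
      rcases htrM with h3 | h3
      · right; linarith
      · left; linarith
  have hZq : Z.q ≤ N ∧ |q| = Z.q := by
    rcases hor with ⟨h0, h⟩ | ⟨h0, h⟩
    · have h1 : Z.q = q := congrArg St.q h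
      rw [abs_of_pos h0]
      omega
    · have h1 : Z.q = -q := congrArg St.q h
      rw [abs_of_neg h0]
      omega
  have hZr : -(N : ℤ) ≤ (tr κ Z).r := by
    rcases hor with ⟨h0, h⟩ | ⟨h0, h⟩
    · rw [h]; exact hr.1
    · rw [h]; change -(N : ℤ) ≤ -r; omega
  rcases classify hZ (by omega) hZtr hn hM1 with h | h
  · -- main case
    left
    obtain ⟨τ, P, i, l, h1, h2, h3, h4, h5, h6, h7, h8⟩ := structure_reg ht5 n Z h hZtr M' hn hM1
    obtain ⟨side, j, k1, k2, k3, k4⟩ := exists_kap h hZq.1 hZr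
    have hV := V_pos h5
    have hsize : (bc t τ : ℤ) * ((i : ℤ) * (V l).1 * j) ^ 2 ≤ N := by
      have e1 : (bs t τ P i).q * ((V l).1 : ℤ) ^ 2 ≤ Z.q := by
        rw [h6, q_act]
        exact form_ge h7 _ _
      calc (bc t τ : ℤ) * ((i : ℤ) * (V l).1 * j) ^ 2
          = (j : ℤ) ^ 2 * ((bc t τ : ℤ) * (i : ℤ) ^ 2 * ((V l).1 : ℤ) ^ 2) := by ring
        _ ≤ (j : ℤ) ^ 2 * ((bs t τ P i).q * ((V l).1 : ℤ) ^ 2) :=
            mul_le_mul_of_nonneg_left (mul_le_mul_of_nonneg_right h8 (by positivity)) (by positivity)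
        _ ≤ (j : ℤ) ^ 2 * Z.q := mul_le_mul_of_nonneg_left e1 (by positivity)
        _ ≤ N := k4
    have hsize' : bc t τ * (i * (V l).1 * j) ^ 2 ≤ N := by exact_mod_cast hsize
    have hdec : ∃ σ, σ < 2 ∧ dec t σ side (l.length % 2) τ P i (V l).1 (V l).2 j = !![p, r; q, s] := by
      rcases hor with ⟨h0, hh⟩ | ⟨h0, hh⟩
      · refine ⟨0, by norm_num, ?_⟩
        rw [dec, if_pos rfl, Prod.mk.eta, wordOf_V h5, ← h6, ← k3, hh]
        rfl
      · refine ⟨1, by norm_num, ?_⟩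
        rw [dec, if_neg (by norm_num), Prod.mk.eta, wordOf_V h5, ← h6, ← k3, hh]
        unfold St.m
        ext i j
        fin_cases i <;> fin_cases j <;> simp
    obtain ⟨σ, hσ, hdec⟩ := hdec
    have hcode : ∀ L, i * (V l).1 * j ≤ L → !![p, r; q, s] ∈ codes t σ side (l.length % 2) τ P L := by
      intro L hL
      have hi : i ≤ L := by
        calc i = i * 1 * 1 := by ring
          _ ≤ i * (V l).1 * j := Nat.mul_le_mul (Nat.mul_le_mul_left _ hV.1) k2
          _ ≤ L := hL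
      have hx : (V l).1 ≤ L / i := by
        rw [Nat.le_div_iff_mul_le (by omega)]
        calc (V l).1 * i = i * (V l).1 * 1 := by ring
          _ ≤ i * (V l).1 * j := Nat.mul_le_mul_left _ k2
          _ ≤ L := hL
      have hj : j ≤ L / i / (V l).1 := by
        rw [Nat.div_div_eq_div_mul, Nat.le_div_iff_mul_le (Nat.mul_pos (by omega) (by omega))]
        calc j * (i * (V l).1) = i * (V l).1 * j := by ring
          _ ≤ L := hL
      rw [codes, Finset.mem_biUnion]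
      refine ⟨i, Finset.mem_Icc.2 ⟨h4, hi⟩, ?_⟩
      rw [Finset.mem_biUnion]
      refine ⟨(V l).1, Finset.mem_Icc.2 ⟨hV.1, hx⟩, ?_⟩
      rw [Finset.mem_biUnion]
      refine ⟨(V l).2, Finset.mem_range.2 (by omega), ?_⟩
      rw [Finset.mem_image]
      exact ⟨j, Finset.mem_Icc.2 ⟨k2, hj⟩, hdec⟩
    rw [Finset.mem_coe, allCodes, Finset.mem_biUnion]
    refine ⟨σ, Finset.mem_range.2 hσ, ?_⟩
    rw [Finset.mem_biUnion]
    refine ⟨side, Finset.mem_range.2 k1, ?_⟩
    rw [Finset.mem_biUnion]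
    refine ⟨l.length % 2, Finset.mem_range.2 (Nat.mod_lt _ (by norm_num)), ?_⟩
    by_cases hτ : τ < 2
    · apply Finset.mem_union_left
      rw [Finset.mem_biUnion]
      refine ⟨τ, Finset.mem_range.2 hτ, ?_⟩
      have hP0 := h3 hτ
      subst hP0
      apply hcode
      rw [bc, if_pos hτ, one_mul] at hsize'
      rw [Nat.le_sqrt, ← sq]
      exact hsize'
    · apply Finset.mem_union_right
      rw [Finset.mem_biUnion]
      refine ⟨τ, Finset.mem_Icc.2 ⟨by omega, by omega⟩, ?_⟩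
      rw [Finset.mem_biUnion]
      refine ⟨P, Finset.mem_range.2 (by omega), ?_⟩
      apply hcode
      rw [bc, if_neg hτ] at hsize'
      rw [Nat.le_sqrt, ← sq, Nat.le_div_iff_mul_le (by omega), mul_comm]
      exact hsize'
  · -- exceptional case
    right
    have hqt := three_q ht5 hZ h
    rw [← hZq.2] at hqt
    rw [Finset.mem_coe, exc, Finset.mem_image]
    obtain ⟨ε, hε, htr⟩ : ∃ ε : ℤ, (ε = t ∨ ε = -(t : ℤ)) ∧ s = ε - p := by
      rcases htrM with h | h
      · exact ⟨t, Or.inl rfl, by linarith⟩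
      · exact ⟨-t, Or.inr rfl, by linarith⟩
    refine ⟨(p, q, ε), ?_, ?_⟩
    · rw [Finset.mem_product, Finset.mem_product, Finset.mem_Icc, Finset.mem_Icc]
      refine ⟨?_, abs_le.1 hqt, by simpa using hε⟩
      rw [← abs_le]
      simp only
      set B := Nat.sqrt N with hB
      have hB1 : N < (B + 1) * (B + 1) := Nat.lt_succ_sqrt N
      have hB1' : (N : ℤ) < (B + 1) * (B + 1) := by exact_mod_cast hB1
      by_contra! hcon
      push_cast at hcon hqt
      -- `|p| |s| ≤ t ^ 2 N + 1`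
      have e1 : |p * s| ≤ t ^ 2 * N + 1 := by
        have : p * s = q * r + 1 := by linarith
        rw [this]
        calc |q * r + 1| ≤ |q * r| + |(1 : ℤ)| := abs_add_le _ _
          _ = |q| * |r| + 1 := by rw [abs_mul, abs_one]
          _ ≤ t ^ 2 * N + 1 := by
              have : |r| ≤ N := abs_le.2 hr
              have := mul_le_mul hqt this (abs_nonneg _) (by positivity)
              linarith
      have e2 : |p| - t ≤ |s| := by
        have h1 : |p| ≤ |ε| + |s| := by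
          calc |p| = |ε - s| := by rw [htr]; congr 1; ring
            _ ≤ |ε| + |s| := abs_sub _ _
        have h2 : |ε| = t := by
          rcases hε with h | h <;> rw [h]
          · exact abs_of_nonneg (by omega)
          · rw [abs_neg]; exact abs_of_nonneg (by omega)
        linarith
      rw [abs_mul] at e1
      have hB0 : (0 : ℤ) ≤ B := Int.natCast_nonneg _
      have e3 : (t : ℤ) * (B + 1) + 1 ≤ |s| := by nlinarith
      have e4 : (t : ℤ) * (B + 1) + 1 ≤ |p| := by nlinarith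
      have e5 : ((t : ℤ) * (B + 1) + 1) * (t * (B + 1) + 1) ≤ |p| * |s| :=
        mul_le_mul e4 e3 (by positivity) (abs_nonneg _)
      nlinarith [mul_nonneg (sq_nonneg (t : ℤ)) (show (0 : ℤ) ≤ (B + 1) * (B + 1) - N by omega)]
    · simp only
      have e1 : p * (ε - p) - 1 = q * r := by rw [← htr]; linarith
      rw [e1, Int.mul_ediv_cancel_left _ hq0, ← htr]

/-- **upper bound** -/
theorem cnt_le {a : ℕ} (ha : 3 ≤ a) (N : ℕ) : (cnt [1, a] N : ℝ) ≤
    16 * (8 * (Nat.sqrt N : ℝ) ^ 2 + 8 * ((a + 2 : ℕ) + 1) * (Nat.sqrt (N / (a + 2 - 3)) : ℝ) ^ 2) +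
      (2 * ((a + 2 : ℕ) * (Nat.sqrt N + 2)) + 1) * ((2 * ((a + 2 : ℕ) : ℝ) ^ 2 + 1) * 2) := by
  classical
  have h1 := S_subset ha N
  rw [← Finset.coe_union, Finset.coe_subset] at h1
  have h2 := (Finset.card_le_card h1).trans (Finset.card_union_le _ _)
  have h3 : cnt [1, a] N = (finite_S [1, a] N).toFinset.card :=
    Set.ncard_eq_toFinset_card _ (finite_S [1, a] N)
  rw [h3]
  have h4 : ((finite_S [1, a] N).toFinset.card : ℝ) ≤
      ((allCodes (a + 2) N).card : ℝ) + ((exc (a + 2) N).card : ℝ) := by exact_mod_cast h2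
  exact h4.trans (add_le_add (card_allCodes _ _) (card_exc _ _))

end Q261.Red
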