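import Pool.Agent.Q261.Red.Tree

set_option autoImplicit false

/-!
# Words of predecessors
-/

namespace Q261.Red

/-- the state reached from `b` by a word of predecessors -/
def act (b : St) (l : List ℕ) : St := l.foldl St.pred b

/-- all letters are positive -/
def PosL (l : List ℕ) : Prop := ∀ k ∈ l, 1 ≤ k

/-- the continuant vector of a word -/
def V : List ℕ → ℕ × ℕ
  | [] => (1, 0)
  | k :: l => (k * (V l).1 + (V l).2, (V l).1)

/-- the quadratic form of a state -/
def form (Z : St) (x y : ℤ) : ℤ := Z.q * x ^ 2 + (Z.p - Z.s) * x * y - Z.r * y ^ 2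

lemma act_append (b : St) (l : List ℕ) (k : ℕ) : act b (l ++ [k]) = (act b l).pred k := by
  simp [act]

lemma form_pred (Y : St) (k : ℕ) (x y : ℤ) : form (Y.pred k) x y = form Y (k * x + y) x := by
  simp only [form, St.pred]; ring

lemma q_act (b : St) (l : List ℕ) : (act b l).q = form b (V l).1 (V l).2 := by
  induction l generalizing b with
  | nil => simp [act, V, form]
  | cons k l ih =>
    change (act (b.pred k) l).q = _
    rw [ih, form_pred, V]
    push_cast
    rfl

lemma reg_act {b : St} (hb : Reg b) {l : List ℕ} (hl : PosL l) : Reg (act b l) := by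
  induction l generalizing b with
  | nil => exact hb
  | cons k l ih =>
    exact ih (reg_pred hb (hl k List.mem_cons_self)).1 fun j hj => hl j (List.mem_cons_of_mem _ hj)

lemma V_pos {l : List ℕ} (hl : PosL l) : 1 ≤ (V l).1 ∧ (V l).2 ≤ (V l).1 := by
  induction l with
  | nil => simp [V]
  | cons k l ih =>
    have h1 := ih fun j hj => hl j (List.mem_cons_of_mem _ hj)
    have hk := hl k List.mem_cons_self
    simp only [V]
    constructor <;> nlinarith

lemma V_snd_eq_zero {l : List ℕ} (hl : PosL l) (h : (V l).2 = 0) : l = [] := by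
  cases l with
  | nil => rfl
  | cons k l =>
    exfalso
    have := (V_pos (l := l) fun j hj => hl j (List.mem_cons_of_mem _ hj)).1
    simp only [V] at h
    omega

lemma V_one {l : List ℕ} (hl : PosL l) (h1 : (V l).1 = 1) (h2 : (V l).2 = 1) : l = [1] := by
  cases l with
  | nil => simp [V] at h2
  | cons k l =>
    have hl' : PosL l := fun j hj => hl j (List.mem_cons_of_mem _ hj)
    have hk := hl k List.mem_cons_self
    simp only [V] at h1 h2
    have hk1 : k = 1 := by
      rw [h2] at h1; omega
    have : (V l).2 = 0 := by
      rw [h2, hk1] at h1; omega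
    rw [V_snd_eq_zero hl' this, hk1]

/-- a word is determined by its vector and the parity of its length -/
lemma V_inj {l l' : List ℕ} (hl : PosL l) (hl' : PosL l') (h : V l = V l')
    (hpar : l.length % 2 = l'.length % 2) : l = l' := by
  induction l generalizing l' with
  | nil =>
    have : (V l').2 = 0 := by rw [← h]; rfl
    exact (V_snd_eq_zero hl' this).symm
  | cons k m ih =>
    cases l' with
    | nil =>
      have : (V (k :: m)).2 = 0 := by rw [h]; rfl
      exact V_snd_eq_zero hl this
    | cons k' m' =>
      have hm : PosL m := fun j hj => hl j (List.mem_cons_of_mem _ hj)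
      have hm' : PosL m' := fun j hj => hl' j (List.mem_cons_of_mem _ hj)
      have p1 := V_pos hm
      have p2 := V_pos hm'
      have h1 : (V m).1 = (V m').1 := congrArg Prod.snd h
      have h2 : k * (V m).1 + (V m).2 = k' * (V m').1 + (V m').2 := congrArg Prod.fst h
      rw [List.length_cons, List.length_cons] at hpar
      rcases lt_trichotomy k k' with hk | hk | hk
      · exfalso
        obtain ⟨d, rfl⟩ : ∃ d, k' = k + d + 1 := ⟨k' - k - 1, by omega⟩
        rw [h1] at h2 p1
        have h3 : (V m).2 = d * (V m').1 + (V m').1 + (V m').2 := by nlinarith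
        have h4 : (V m').2 = 0 := by
          have : 0 ≤ d * (V m').1 := Nat.zero_le _
          omega
        have h5 := V_snd_eq_zero hm' h4
        subst h5
        simp only [V] at h1 h3 p1
        have h6 : (V m).2 = 1 := by omega
        have h7 := V_one hm h1 h6
        rw [h7] at hpar
        simp at hpar
      · subst hk
        rw [h1] at h2
        have h3 : (V m).2 = (V m').2 := by omega
        rw [ih hm hm' (Prod.ext h1 h3) (by omega)]
      · exfalso
        obtain ⟨d, rfl⟩ : ∃ d, k = k' + d + 1 := ⟨k - k' - 1, by omega⟩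
        rw [← h1] at h2 p2
        have h3 : (V m').2 = d * (V m).1 + (V m).1 + (V m).2 := by nlinarith
        have h4 : (V m).2 = 0 := by
          have : 0 ≤ d * (V m).1 := Nat.zero_le _
          omega
        have h5 := V_snd_eq_zero hm h4
        subst h5
        simp only [V] at h1 h3 p2
        have h6 : (V m').2 = 1 := by omega
        have h7 := V_one hm' h1.symm h6
        rw [h7] at hpar
        simp at hpar

/-- every coprime pair is the vector of a word -/
lemma exists_word (y : ℕ) : ∀ x, 1 ≤ y → y ≤ x → Nat.Coprime x y → ∃ l, PosL l ∧ V l = (x, y) := by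
  induction y using Nat.strong_induction_on with
  | _ y ih =>
    intro x hy hyx hc
    rcases Nat.eq_or_lt_of_le hy with h1 | h1
    · refine ⟨[x], fun k hk => ?_, ?_⟩
      · rw [List.mem_singleton.1 hk]; omega
      · rw [← h1]; simp [V]
    · have hz : 1 ≤ x % y := by
        by_contra hz
        have : x % y = 0 := by omega
        have h2 : y ∣ x := Nat.dvd_of_mod_eq_zero this
        have h3 : Nat.gcd x y = y := Nat.gcd_eq_right h2
        rw [Nat.coprime_iff_gcd_eq_one.1 hc] at h3
        omega
      have hzy : x % y < y := Nat.mod_lt _ (by omega)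
      obtain ⟨l, hl, hV⟩ := ih (x % y) hzy y hz hzy.le (by
        rw [Nat.coprime_comm, Nat.coprime_iff_gcd_eq_one]
        rw [Nat.coprime_iff_gcd_eq_one, Nat.gcd_comm, Nat.gcd_rec] at hc
        exact hc)
      refine ⟨x / y :: l, fun k hk => ?_, ?_⟩
      · rcases List.mem_cons.1 hk with hk | hk
        · rw [hk]; exact Nat.div_pos hyx (by omega)
        · exact hl k hk
      · simp only [V, hV]
        have := Nat.div_add_mod' x y
        rw [this]

/-- the word of a vector with a parity -/
noncomputable def wordOf (v : ℕ × ℕ) (par : ℕ) : List ℕ := by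
  classical
  exact if h : ∃ l, PosL l ∧ V l = v ∧ l.length % 2 = par then h.choose else []

lemma wordOf_V {l : List ℕ} (hl : PosL l) : wordOf (V l) (l.length % 2) = l := by
  classical
  have h : ∃ l', PosL l' ∧ V l' = V l ∧ l'.length % 2 = l.length % 2 := ⟨l, hl, rfl, rfl⟩
  unfold wordOf
  rw [dif_pos h]
  obtain ⟨h1, h2, h3⟩ := h.choose_spec
  exact V_inj h1 hl h2 h3

/-- predecessors determine the state and the letter -/
lemma pred_inj {Y Y' : St} (h : Nrm Y) (h' : Nrm Y') {k k' : ℕ} (he : Y.pred k = Y'.pred k') :
    Y = Y' ∧ k = k' := by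
  obtain ⟨p, q, r, s⟩ := Y
  obtain ⟨p', q', r', s'⟩ := Y'
  obtain ⟨h1, h2, h3⟩ := h
  obtain ⟨g1, g2, g3⟩ := h'
  simp only [St.pred, St.mk.injEq] at *
  obtain ⟨e1, e2, e3, e4⟩ := he
  have hq : q = q' := by linarith
  subst hq
  have e5 : p + k * q = p' + k' * q := by linarith
  have hk : (k : ℤ) = k' := by
    have a1 : (p + k * q) / q = k := by
      rw [Int.add_mul_ediv_right _ _ (by omega), Int.ediv_eq_zero_of_lt h1 h2, zero_add]
    have a2 : (p' + k' * q) / q = k' := by
      rw [Int.add_mul_ediv_right _ _ (by omega), Int.ediv_eq_zero_of_lt g1 g2, zero_add]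
    rw [← a1, e5, a2]
  have hk' : k = k' := by exact_mod_cast hk
  subst hk'
  have hp : p = p' := by linarith
  subst hp
  have hs : s = s' := by linarith
  subst hs
  refine ⟨⟨rfl, rfl, ?_, rfl⟩, rfl⟩
  linarith

lemma q_lt_act {b : St} (hb : Reg b) {l : List ℕ} (hl : PosL l) (hne : l ≠ []) :
    b.q < (act b l).q := by
  induction l generalizing b with
  | nil => exact absurd rfl hne
  | cons k l ih =>
    have h1 := reg_pred hb (hl k List.mem_cons_self)
    change b.q < (act (b.pred k) l).q
    rcases eq_or_ne l [] with rfl | hl0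
    · exact h1.2
    · exact h1.2.trans (ih h1.1 (fun j hj => hl j (List.mem_cons_of_mem _ hj)) hl0)

/-- different words give different states -/
lemma act_inj {b : St} (hb : Reg b) : ∀ (l l' : List ℕ), PosL l → PosL l' →
    act b l = act b l' → l = l' := by
  intro l
  induction l using List.reverseRecOn with
  | nil =>
    intro l' _ hl' he
    by_contra hne
    have := q_lt_act hb hl' (Ne.symm hne)
    rw [← he] at this
    exact lt_irrefl _ this
  | append_singleton l k ih =>
    intro l' hl hl' he
    induction l' using List.reverseRecOn with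
    | nil =>
      exfalso
      have := q_lt_act hb hl (by simp)
      rw [he] at this
      exact lt_irrefl _ this
    | append_singleton l' k' _ =>
      rw [act_append, act_append] at he
      have m1 : PosL l := fun j hj => hl j (List.mem_append_left _ hj)
      have m2 : PosL l' := fun j hj => hl' j (List.mem_append_left _ hj)
      obtain ⟨e1, e2⟩ := pred_inj (reg_act hb m1).1 (reg_act hb m2).1 he
      rw [ih l' m1 m2 e1, e2]

/-- lower bound for the size -/
lemma form_ge {b : St} (hb : Reg b) (x y : ℕ) : b.q * (x : ℤ) ^ 2 ≤ form b x y := by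
  have hr := hb.r_neg
  obtain ⟨⟨h1, h2, h3⟩, h4, h5⟩ := hb
  unfold form
  have e1 : 0 ≤ (b.p - b.s) * x * y := by
    have : 0 ≤ b.p - b.s := by omega
    positivity
  have e2 : 0 ≤ -b.r * (y : ℤ) ^ 2 := mul_nonneg (by omega) (by positivity)
  linarith

end Q261.Red
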